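import Mathlib
import Pool.Agent.Lib.MP_7682a8_an.KB.Iface
import Pool.Agent.Lib.MP_7682a8_an.KB.H74.Final

/-!
The Koebe constant of the class of normalised injective sense-preserving harmonic maps of the unit
disc (`S_H^0`) is at least `1/14`.

Idea of proof.  Let `f = h + conj g` omit `-δ`, `G = √(1 + f/δ)`, `q = (G - 1)/(G + 1)`,
`a = z h' / (f G)`, `b = conj (z g') / (f G)`.  The maps `q` and `1/q` are injective with disjoint
images, which bounds the integral of `|a|² - |b|²` by `log (4 δ)`; the mean of `a - b` on every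
circle is `1`, and `|b| ≤ r |a|`; this gives `1/16` (Clunie, Sheil-Small).  New: near the origin the
integrand is corrected by the exact identity `∫ mean (n (Y_t + 2 a Y_u)) = [mean (n Y)]`,
`n = conj (z g')`, with the multiplier `Y = α/q + β + γ q`, and the growth of `log (1 + f/δ)`
near the origin is controlled by the covering theorem itself, applied to the Koebe transforms of `f`.
Three iterations lead from `1/16` to `1/14`.
-/

set_option autoImplicit false

open Metric Set

namespace Pool.Agent.Results.MP_7682a8_an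

theorem KoebeFourteen.result :
    ∀ h g : ℂ → ℂ,
      DifferentiableOn ℂ h (ball (0 : ℂ) 1) →
      DifferentiableOn ℂ g (ball (0 : ℂ) 1) →
      h 0 = 0 → deriv h 0 = 1 → g 0 = 0 → deriv g 0 = 0 →
      (∀ z ∈ ball (0 : ℂ) 1, ‖deriv g z‖ < ‖deriv h z‖) →
      Set.InjOn (fun z => h z + starRingEnd ℂ (g z)) (ball (0 : ℂ) 1) →
      ball (0 : ℂ) (1 / 14) ⊆ (fun z => h z + starRingEnd ℂ (g z)) '' ball (0 : ℂ) 1 :=
  Pool.Agent.Lib.MP_7682a8_an.KB.H74.cov14

end Pool.Agent.Results.MP_7682a8_an
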