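import Mathlib
import Pool.Agent.Lib.MP_7682a8_an.H10.Point
import Pool.Agent.Lib.MP_7682a8_an.H10.KoebeMap
import Pool.Agent.Lib.MP_7682a8_an.OM.H10.Rep
import Pool.Agent.Lib.MP_7682a8_an.OM.H10.Mix
import Pool.Agent.Lib.MP_7682a8_an.OM.H86.Kern
import Pool.Agent.Lib.MP_7682a8_an.OM.H86.Run
import Pool.Agent.Lib.MP_7682a8_an.OM.H86.Core
import Pool.Agent.Lib.MP_7682a8_an.OM.H86.Ray
import Pool.Agent.Lib.MP_7682a8_an.OM.H86.Point

/-!
The one-sixth theorem for omitted half-lines.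

Let `f = h + conj g` be harmonic in the unit disc with `|g'| < |h'|` (injectivity is not needed).
Every half-line, in any direction and any position, which is disjoint from the image has distance
at least `1/6` from `f 0` in the normalised case `h 0 = g 0 = g' 0 = 0`, `h' 0 = 1`; in general
there is an affinely invariant estimate at every point `c` of the disc.

Idea of proof (direction `-1`, level `κ > 0`, circle `|z| = 1` after scaling): let `φ = h - g`,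
`A' = φ / z`, `U(t) = Re A(e^{it})`, so that `U' = - Im f`. For a point `e^{it0}` with
`U'(t0) = κ`, Herglotz's formula and an integral formula with the kernel
`N(x) = (x - sin x cos x) / (2 sin^2 x)` express `- Re f(e^{it0})` as an average of
`-(1/π) ∫ N((t - τ)/2) (U'(t) - κ) dt`. The point `t0` is chosen as a minimum point of
`M + λ ∫ (U - κ t - M)`, where `M` is the running minimum of `U(t) - κ t` and `λ` makes this
function periodic.
-/

set_option autoImplicit false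

open Metric Set

namespace Pool.Agent.Results.MP_7682a8_an

theorem OmittedHalfLines.result :
    -- (A) half-lines starting close to the value `f c`
    (∀ h g : ℂ → ℂ,
      DifferentiableOn ℂ h (ball (0 : ℂ) 1) →
      DifferentiableOn ℂ g (ball (0 : ℂ) 1) →
      (∀ z ∈ ball (0 : ℂ) 1, ‖deriv g z‖ < ‖deriv h z‖) →
      ∀ c ∈ ball (0 : ℂ) 1, ∀ r : ℝ, 0 < r → r < 1 → ∀ w u : ℂ, u ≠ 0 →
        ‖starRingEnd ℂ (deriv h c) * (w - (h c + starRingEnd ℂ (g c))) -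
          starRingEnd ℂ (deriv g c) * starRingEnd ℂ (w - (h c + starRingEnd ℂ (g c)))‖ ≤
          r / 6 * ((1 - ‖c‖ ^ 2) * (‖deriv h c‖ ^ 2 - ‖deriv g c‖ ^ 2)) →
        ∃ z ∈ ball (0 : ℂ) 1, ‖z - c‖ = r * ‖1 - starRingEnd ℂ c * z‖ ∧ ∃ t : ℝ, 0 ≤ t ∧
          h z + starRingEnd ℂ (g z) = w + t * u) ∧
    -- (B) the normalised case: omitted half-lines have distance at least 1/6 from 0
    (∀ h g : ℂ → ℂ,
      DifferentiableOn ℂ h (ball (0 : ℂ) 1) →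
      DifferentiableOn ℂ g (ball (0 : ℂ) 1) →
      h 0 = 0 → deriv h 0 = 1 → g 0 = 0 → deriv g 0 = 0 →
      (∀ z ∈ ball (0 : ℂ) 1, ‖deriv g z‖ < ‖deriv h z‖) →
      ∀ w u : ℂ, u ≠ 0 →
        (∀ t : ℝ, 0 ≤ t → ∀ z ∈ ball (0 : ℂ) 1, h z + starRingEnd ℂ (g z) ≠ w + t * u) →
        ∀ t : ℝ, 0 ≤ t → 1 / 6 ≤ ‖w + t * u‖) ∧
    -- (C) sharpness
    (∃ h g : ℂ → ℂ,
      DifferentiableOn ℂ h (ball (0 : ℂ) 1) ∧
      DifferentiableOn ℂ g (ball (0 : ℂ) 1) ∧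
      h 0 = 0 ∧ deriv h 0 = 1 ∧ g 0 = 0 ∧ deriv g 0 = 0 ∧
      (∀ z ∈ ball (0 : ℂ) 1, ‖deriv g z‖ < ‖deriv h z‖) ∧
      Set.InjOn (fun z => h z + starRingEnd ℂ (g z)) (ball (0 : ℂ) 1) ∧
      ∀ t : ℝ, 0 ≤ t → ∀ z ∈ ball (0 : ℂ) 1,
        h z + starRingEnd ℂ (g z) ≠ -(1 / 6) + t * (-1)) := by
  have hRAY : Pool.Agent.Lib.MP_7682a8_an.OM.RAYStatement :=
    Pool.Agent.Lib.MP_7682a8_an.OM.H86.ray
      (Pool.Agent.Lib.MP_7682a8_an.OM.H86.core
        (Pool.Agent.Lib.MP_7682a8_an.OM.H86.run Pool.Agent.Lib.MP_7682a8_an.OM.H86.kern)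
        (Pool.Agent.Lib.MP_7682a8_an.OM.H10.rep Pool.Agent.Lib.MP_7682a8_an.OM.H86.kern)
        Pool.Agent.Lib.MP_7682a8_an.OM.H10.mix)
  have hA : ∀ h g : ℂ → ℂ,
      DifferentiableOn ℂ h (ball (0 : ℂ) 1) →
      DifferentiableOn ℂ g (ball (0 : ℂ) 1) →
      (∀ z ∈ ball (0 : ℂ) 1, ‖deriv g z‖ < ‖deriv h z‖) →
      (∀ c ∈ ball (0 : ℂ) 1, ∀ r : ℝ, 0 < r → r < 1 → ∀ w u : ℂ, u ≠ 0 →
        ‖starRingEnd ℂ (deriv h c) * (w - (h c + starRingEnd ℂ (g c))) -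
          starRingEnd ℂ (deriv g c) * starRingEnd ℂ (w - (h c + starRingEnd ℂ (g c)))‖ ≤
          r / 6 * ((1 - ‖c‖ ^ 2) * (‖deriv h c‖ ^ 2 - ‖deriv g c‖ ^ 2)) →
        ∃ z ∈ ball (0 : ℂ) 1, ‖z - c‖ = r * ‖1 - starRingEnd ℂ c * z‖ ∧ ∃ t : ℝ, 0 ≤ t ∧
          h z + starRingEnd ℂ (g z) = w + t * u) := by
    intro h g hh hg hlt c hc r hr0 hr1 w u hu hw
    exact Pool.Agent.Lib.MP_7682a8_an.OM.H86.half_point hRAY hh hg hlt hc hr0 hr1 hu hw
  refine ⟨fun h g hh hg hlt => hA h g hh hg hlt, ?_, ?_⟩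
  · intro h g hh hg hh0 hh1 hg0 hg1 hlt w u hu hom t ht
    have h0mem : (0:ℂ) ∈ ball (0:ℂ) 1 := mem_ball_self one_pos
    by_contra hcon
    rw [not_le] at hcon
    have hX0 : 0 ≤ ‖w + t * u‖ := norm_nonneg _
    obtain ⟨z, hz, -, s, hs, heq⟩ := hA h g hh hg hlt 0 h0mem ((1 + 6 * ‖w + t * u‖) / 2)
      (by positivity) (by linarith) (w + t * u) u hu (by
        rw [hh0, hg0, hh1, hg1]
        simp only [map_one, map_zero, add_zero, sub_zero, one_mul, zero_mul, norm_one, norm_zero]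
        norm_num
        linarith)
    refine hom (t + s) (by linarith) z hz ?_
    rw [heq]
    push_cast
    ring
  · obtain ⟨a1, a2, a3, a4, a5, a6, a7⟩ := Pool.Agent.Lib.MP_7682a8_an.H10.k_props
    refine ⟨Pool.Agent.Lib.MP_7682a8_an.H10.kh, Pool.Agent.Lib.MP_7682a8_an.H10.kg,
      a1, a2, a3, a4, a5, a6, a7, Pool.Agent.Lib.MP_7682a8_an.H10.kf_injOn, ?_⟩
    intro t ht z hz h0
    apply Pool.Agent.Lib.MP_7682a8_an.H10.kf_omits (t := 1 + 6 * t) (by linarith) hz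
    have h1 : ((1 + 6 * t : ℝ) : ℂ) * (-(1 / 6) : ℂ) = -(1 / 6) + t * (-1) := by
      push_cast; ring
    rw [h1, ← h0]

end Pool.Agent.Results.MP_7682a8_an
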